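import Mathlib
import Pool.Agent.X83.DM.Stm

/-! Project DM: the upper bound by duality. -/

set_option autoImplicit false

namespace Pool.Agent.X200.DM

open MeasureTheory Set Filter Topology Real
open Pool.Agent.X83.DM

theorem norm_vec_cont {d : ℕ} (g : Fin d → ℝ → ℝ) (hgc : ∀ i, Continuous (g i)) (v : Fin d → ℝ) :
    Continuous fun s => ‖vec g v s‖ := by
  refine continuous_norm.comp ?_
  unfold vec
  refine (PiLp.continuous_toLp 2 _).comp ?_
  exact continuous_pi fun i => (hgc i).mul continuous_const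

theorem vec_int {d : ℕ} (g : Fin d → ℝ → ℝ) (hgc : ∀ i, Continuous (g i)) (v : Fin d → ℝ)
    (M η : Fin d → ℝ) (hη : ∀ i, 0 < η i)
    (hdec : ∀ i, ∀ t : ℝ, 0 ≤ t → |g i t| ≤ M i * exp (-(η i * t))) :
    IntegrableOn (fun s => ‖vec g v s‖) (Ioi 0) := by
  have h1 : IntegrableOn (fun s : ℝ => ∑ i, M i * exp (-(η i * s)) * |v i|) (Ioi 0) := by
    refine integrable_finsetSum _ fun i _ => ?_
    have h2 : IntegrableOn (fun s : ℝ => exp (-(η i * s))) (Ioi 0) := by
      have := integrableOn_exp_mul_Ioi (a := -(η i)) (by linarith [hη i]) 0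
      refine this.congr_fun (fun s _ => ?_) measurableSet_Ioi
      show exp (-η i * s) = exp (-(η i * s))
      congr 1
      ring
    exact (h2.const_mul (M i)).mul_const _
  refine Integrable.mono' h1 (norm_vec_cont g hgc v).aestronglyMeasurable ?_
  filter_upwards [ae_restrict_mem measurableSet_Ioi] with s hs
  have hs' : 0 ≤ s := le_of_lt hs
  rw [norm_norm]
  have h3 : ‖vec g v s‖ ≤ ∑ i, ‖(vec g v s) i‖ := by
    rw [EuclideanSpace.norm_eq]
    refine Real.sqrt_le_iff.2 ⟨Finset.sum_nonneg fun _ _ => norm_nonneg _, ?_⟩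
    exact Finset.sum_sq_le_sq_sum_of_nonneg fun _ _ => norm_nonneg _
  refine h3.trans (Finset.sum_le_sum fun i _ => ?_)
  show ‖g i s * v i‖ ≤ _
  rw [norm_mul, Real.norm_eq_abs, Real.norm_eq_abs]
  exact mul_le_mul_of_nonneg_right (hdec i s hs') (abs_nonneg _)

theorem up (hD : S_DEC) (d : ℕ) (a : Fin d → ℝ) (y g : Fin d → ℝ → ℝ) (c K : ℝ) (hK : 0 ≤ K)
    (hc : 0 < c) (ha : ∀ i, 0 < a i) (hk : ∀ i, Ker (a i) c (y i) (g i))
    (hP : ∀ v : Fin d → ℝ, Phi g v ≤ K * ‖(WithLp.toLp 2 v : EuclideanSpace ℝ (Fin d))‖) :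
    Good a y g K := by
  intro u0 u1 f L hf hL ε hε
  have hdec0 : ∀ i, ∃ M η : ℝ, 0 < η ∧ 0 ≤ M ∧ ∀ t : ℝ, 0 ≤ t →
      |y i t| ≤ M * exp (-(η * t)) ∧ |g i t| ≤ M * exp (-(η * t)) := fun i => by
    obtain ⟨M, η, h1, h2, h3⟩ := hD (a i) c c (ha i) hc le_rfl
    exact ⟨M, η, h1, h2, h3 c ⟨le_rfl, le_rfl⟩ _ _ (hk i)⟩
  choose M η hη hM hdec using hdec0
  have hgc : ∀ i, Continuous (g i) := fun i =>
    continuous_iff_continuousAt.2 fun t => ((hk i).dg t).continuousAt
  obtain ⟨T1, hT1⟩ := eventually_atTop.1 hL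
  set T0 : ℝ := max T1 0 with hT0def
  have hT00 : 0 ≤ T0 := le_max_right _ _
  have hT0 : ∀ s, T0 ≤ s → ‖f s‖ ≤ L := fun s hs => hT1 s ((le_max_left _ _).trans hs)
  have hL0 : 0 ≤ L := (norm_nonneg _).trans (hT0 T0 le_rfl)
  have hexp : ∀ i, Tendsto (fun t : ℝ => M i * exp (-(η i * t))) atTop (𝓝 0) := fun i => by
    have h1 : Tendsto (fun t : ℝ => exp (-(η i * t))) atTop (𝓝 0) :=
      Real.tendsto_exp_neg_atTop_nhds_zero.comp (tendsto_id.const_mul_atTop (hη i))
    simpa using h1.const_mul (M i)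
  have hy0 : ∀ i, Tendsto (y i) atTop (𝓝 0) := fun i => by
    refine squeeze_zero_norm' ?_ (hexp i)
    filter_upwards [eventually_ge_atTop 0] with t ht
    exact (hdec i t ht).1
  have hg0 : ∀ i, Tendsto (g i) atTop (𝓝 0) := fun i => by
    refine squeeze_zero_norm' ?_ (hexp i)
    filter_upwards [eventually_ge_atTop 0] with t ht
    exact (hdec i t ht).2
  -- components
  have hfi : ∀ i, ∀ p q : ℝ, IntervalIntegrable (fun s => f s i) volume p q := by
    intro i p q
    have h1 : IntegrableOn f (uIcc p q) := hf.integrableOn_isCompact isCompact_uIcc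
    have h2 : IntegrableOn (fun s => f s i) (uIcc p q) := by
      have := (EuclideanSpace.proj i : EuclideanSpace ℝ (Fin d) →L[ℝ] ℝ).integrable_comp h1
      exact this
    exact h2.intervalIntegrable
  have hgf : ∀ i, ∀ t p q : ℝ, IntervalIntegrable (fun s => g i (t - s) * f s i) volume p q := by
    intro i t p q
    refine (hfi i p q).continuousOn_mul ?_
    exact ((hgc i).comp (continuous_const.sub continuous_id)).continuousOn
  have hI0 : ∀ i, Tendsto (fun t => ∫ s in (0 : ℝ)..T0, g i (t - s) * f s i) atTop (𝓝 0) := by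
    intro i
    have h1 : Tendsto (fun t : ℝ => M i * exp (-(η i * (t - T0))) * ∫ s in (0 : ℝ)..T0, |f s i|) atTop
        (𝓝 0) := by
      have h2 : Tendsto (fun t : ℝ => M i * exp (-(η i * (t - T0)))) atTop (𝓝 0) :=
        (hexp i).comp (tendsto_atTop_add_const_right _ (-T0) tendsto_id)
      simpa using h2.mul_const (∫ s in (0 : ℝ)..T0, |f s i|)
    refine squeeze_zero_norm' ?_ h1
    filter_upwards [eventually_ge_atTop T0] with t ht
    rw [← intervalIntegral.integral_const_mul]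
    refine intervalIntegral.norm_integral_le_of_norm_le hT00 ?_ ((hfi i 0 T0).abs.const_mul _)
    refine Eventually.of_forall fun s hs => ?_
    rw [norm_mul, Real.norm_eq_abs, Real.norm_eq_abs]
    refine mul_le_mul_of_nonneg_right ?_ (abs_nonneg _)
    have h3 : 0 ≤ t - s := by linarith [hs.2]
    refine ((hdec i (t - s) h3).2).trans ?_
    refine mul_le_mul_of_nonneg_left (exp_le_exp.2 ?_) (hM i)
    have h4 : η i * (t - T0) ≤ η i * (t - s) :=
      mul_le_mul_of_nonneg_left (by linarith [hs.2]) (hη i).le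
    linarith
  let E : ℝ → EuclideanSpace ℝ (Fin d) := fun t => WithLp.toLp 2 fun i =>
    -(a i * y i t * u0 i) + g i t * u1 i + ∫ s in (0 : ℝ)..T0, g i (t - s) * f s i
  have hE : Tendsto E atTop (𝓝 0) := by
    have h1 : Tendsto (fun t : ℝ => fun i : Fin d =>
        -(a i * y i t * u0 i) + g i t * u1 i + ∫ s in (0 : ℝ)..T0, g i (t - s) * f s i) atTop
        (𝓝 fun _ => 0) := by
      rw [tendsto_pi_nhds]
      intro i
      have h2 := ((((hy0 i).const_mul (a i)).mul_const (u0 i)).neg.add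
        ((hg0 i).mul_const (u1 i))).add (hI0 i)
      simpa using h2
    have h3 := ((PiLp.continuous_toLp 2 (fun _ : Fin d => ℝ)).tendsto (fun _ => 0)).comp h1
    have h4 : (WithLp.toLp 2 (fun _ : Fin d => (0 : ℝ)) : EuclideanSpace ℝ (Fin d)) = 0 := by
      ext i
      rfl
    rw [h4] at h3
    exact h3
  have hEε : ∀ᶠ t in atTop, ‖E t‖ < ε := by
    have h1 := hE.norm
    rw [norm_zero] at h1
    exact h1.eventually_lt_const hε
  filter_upwards [hEε, eventually_ge_atTop T0] with t ht1 ht2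
  let w : Fin d → ℝ := fun i => ∫ s in T0..t, g i (t - s) * f s i
  have hsplit : (WithLp.toLp 2 fun i => -(a i * y i t * u0 i) + g i t * u1 i +
      ∫ s in (0 : ℝ)..t, g i (t - s) * f s i : EuclideanSpace ℝ (Fin d)) =
      E t + WithLp.toLp 2 w := by
    ext i
    show -(a i * y i t * u0 i) + g i t * u1 i + ∫ s in (0 : ℝ)..t, g i (t - s) * f s i =
      (-(a i * y i t * u0 i) + g i t * u1 i + ∫ s in (0 : ℝ)..T0, g i (t - s) * f s i) +
        ∫ s in T0..t, g i (t - s) * f s i
    rw [← intervalIntegral.integral_add_adjacent_intervals (hgf i t 0 T0) (hgf i t T0 t)]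
    ring
  have hw : ‖(WithLp.toLp 2 w : EuclideanSpace ℝ (Fin d))‖ ^ 2 ≤
      L * (K * ‖(WithLp.toLp 2 w : EuclideanSpace ℝ (Fin d))‖) := by
    have h1 : ‖(WithLp.toLp 2 w : EuclideanSpace ℝ (Fin d))‖ ^ 2 =
        ∫ s in T0..t, ∑ i, w i * (g i (t - s) * f s i) := by
      rw [intervalIntegral.integral_finsetSum fun i _ => (hgf i t T0 t).const_mul (w i),
        EuclideanSpace.norm_sq_eq]
      refine Finset.sum_congr rfl fun i _ => ?_
      rw [intervalIntegral.integral_const_mul]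
      show ‖w i‖ ^ 2 = w i * w i
      rw [Real.norm_eq_abs, sq_abs, sq]
    have hvc := norm_vec_cont g hgc w
    have h2 : ∀ s ∈ Icc T0 t, ∑ i, w i * (g i (t - s) * f s i) ≤ ‖vec g w (t - s)‖ * L := by
      intro s hs
      have h3 : ∑ i, w i * (g i (t - s) * f s i) = inner ℝ (vec g w (t - s)) (f s) := by
        rw [PiLp.inner_apply]
        refine Finset.sum_congr rfl fun i _ => ?_
        show _ = inner ℝ (g i (t - s) * w i) (f s i)
        rw [real_inner_eq_re_inner]
        simp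
        ring
      rw [h3]
      exact (real_inner_le_norm _ _).trans
        (mul_le_mul_of_nonneg_left (hT0 s hs.1) (norm_nonneg _))
    have h4 : ∫ s in T0..t, ∑ i, w i * (g i (t - s) * f s i) ≤
        ∫ s in T0..t, ‖vec g w (t - s)‖ * L := by
      refine intervalIntegral.integral_mono_on ht2 ?_ ?_ h2
      · have h7 := IntervalIntegrable.sum Finset.univ fun i _ => (hgf i t T0 t).const_mul (w i)
        have h8 : (∑ i ∈ Finset.univ, fun s => w i * (g i (t - s) * f s i)) =
            fun s => ∑ i, w i * (g i (t - s) * f s i) := by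
          funext s
          rw [Finset.sum_apply]
        rw [h8] at h7
        exact h7
      · exact ((hvc.comp (continuous_const.sub continuous_id)).mul continuous_const).intervalIntegrable _ _
    have h5 : ∫ s in T0..t, ‖vec g w (t - s)‖ * L = (∫ r in (0 : ℝ)..(t - T0), ‖vec g w r‖) * L := by
      rw [intervalIntegral.integral_mul_const]
      congr 1
      have := intervalIntegral.integral_comp_sub_left (fun r => ‖vec g w r‖) t (a := T0) (b := t)
      rw [this, sub_self]
    have h6 : ∫ r in (0 : ℝ)..(t - T0), ‖vec g w r‖ ≤ Phi g w := by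
      rw [intervalIntegral.integral_of_le (by linarith)]
      unfold Phi
      exact setIntegral_mono_set (vec_int g hgc w M η hη fun i t ht => (hdec i t ht).2)
        (Eventually.of_forall fun _ => norm_nonneg _)
        (LE.le.eventuallyLE fun r hr => hr.1)
    rw [h1]
    calc ∫ s in T0..t, ∑ i, w i * (g i (t - s) * f s i) ≤ _ := h4
      _ = (∫ r in (0 : ℝ)..(t - T0), ‖vec g w r‖) * L := h5
      _ ≤ Phi g w * L := mul_le_mul_of_nonneg_right h6 hL0
      _ ≤ (K * ‖(WithLp.toLp 2 w : EuclideanSpace ℝ (Fin d))‖) * L :=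
          mul_le_mul_of_nonneg_right (hP w) hL0
      _ = _ := mul_comm _ _
  have hw2 : ‖(WithLp.toLp 2 w : EuclideanSpace ℝ (Fin d))‖ ≤ K * L := by
    by_contra hcon
    push Not at hcon
    have h1 : 0 ≤ K * L := mul_nonneg hK hL0
    have h2 : 0 < ‖(WithLp.toLp 2 w : EuclideanSpace ℝ (Fin d))‖ := lt_of_le_of_lt h1 hcon
    nlinarith
  rw [hsplit]
  refine (norm_add_le _ _).trans ?_
  linarith

theorem up' (hD : S_DEC) (d : ℕ) (hd : 0 < d) (a : Fin d → ℝ) (y g : Fin d → ℝ → ℝ) (c K : ℝ)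
    (hc : 0 < c) (ha : ∀ i, 0 < a i) (hk : ∀ i, Ker (a i) c (y i) (g i))
    (hP : ∀ v : Fin d → ℝ, Phi g v ≤ K * ‖(WithLp.toLp 2 v : EuclideanSpace ℝ (Fin d))‖) :
    Good a y g K := by
  refine up hD d a y g c K ?_ hc ha hk hP
  have h1 := hP (fun i => if i = ⟨0, hd⟩ then 1 else 0)
  have h2 : 0 ≤ Phi g (fun i => if i = ⟨0, hd⟩ then 1 else 0) :=
    integral_nonneg fun _ => norm_nonneg _
  have h3 : ‖(WithLp.toLp 2 (fun i : Fin d => if i = ⟨0, hd⟩ then (1 : ℝ) else 0) :
      EuclideanSpace ℝ (Fin d))‖ = 1 := by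
    rw [EuclideanSpace.norm_eq]
    simp
  rw [h3, mul_one] at h1
  exact h2.trans h1

end Pool.Agent.X200.DM
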